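import Pool.Agent.helper48.AGR.Spec

/-!
# Row NF of MP_def0df_al: the normal form theorem for amalgams of two groups
-/

set_option autoImplicit false

namespace Pool.Agent.AGR

open Monoid Function

/-- A reduced element is the product of a list of letters as in the normal form theorem. -/
lemma NF_list {L R C : Type} [Group L] [Group R] [Group C] (f : C →* L) (g : C →* R)
    (a b : Bool) (n : ℕ) (x : Am f g) (h : Red f g a b n x) :
    ∃ l : List (Σ i, Fam L R i), l ≠ [] ∧ (∀ s ∈ l.head?, s.1 = a) ∧
      (∀ s ∈ l.getLast?, s.1 = b) ∧ (∀ s ∈ l, s.2 ∉ (fmap f g s.1).range) ∧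
      l.IsChain (fun s t => s.1 ≠ t.1) ∧
      x = (PushoutI.ofCoprodI (φ := fmap f g) ((l.map fun s => CoprodI.of s.2).prod)) := by
  induction h with
  | l x h =>
    refine ⟨[⟨false, x⟩], by simp, by simp, by simp, ?_, by simp, ?_⟩
    · intro s hs
      rw [List.mem_singleton] at hs
      subst hs
      exact h
    · rw [List.map_singleton, List.prod_singleton]
      exact (PushoutI.ofCoprodI_of (φ := fmap f g) false x).symm
  | r x h =>
    refine ⟨[⟨true, x⟩], by simp, by simp, by simp, ?_, by simp, ?_⟩
    · intro s hs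
      rw [List.mem_singleton] at hs
      subst hs
      exact h
    · rw [List.map_singleton, List.prod_singleton]
      exact (PushoutI.ofCoprodI_of (φ := fmap f g) true x).symm
  | @app a b d m n x y hx hy ihx ihy =>
    obtain ⟨l₁, h1, h2, h3, h4, h5, h6⟩ := ihx
    obtain ⟨l₂, k1, k2, k3, k4, k5, k6⟩ := ihy
    refine ⟨l₁ ++ l₂, by simp [h1], ?_, ?_, ?_, ?_, ?_⟩
    · rw [List.head?_append_of_ne_nil _ h1]
      exact h2
    · rw [List.getLast?_append_of_ne_nil _ k1]
      exact k3
    · intro s hs
      rcases List.mem_append.mp hs with hs | hs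
      · exact h4 s hs
      · exact k4 s hs
    · rw [List.isChain_append]
      refine ⟨h5, k5, fun s hs t ht => ?_⟩
      rw [h3 s hs, k2 t ht]
      cases b <;> simp
    · rw [List.map_append, List.prod_append, map_mul, h6, k6]
      rfl

theorem NF : NF_stmt := by
  intro L R C _ _ _ f g hf hg a b n x hx c hc
  obtain ⟨l, h1, _, _, h4, h5, h6⟩ := NF_list f g a b n x hx
  let w : CoprodI.Word (Fam L R) :=
    { toList := l
      ne_one := fun s hs h => h4 s hs (h ▸ one_mem _)
      chain_ne := h5 }
  have hw : PushoutI.Reduced (fmap f g) w := h4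
  have hmem : PushoutI.ofCoprodI (φ := fmap f g) w.prod ∈ (PushoutI.base (fmap f g)).range := by
    refine ⟨c, ?_⟩
    have h7 : (PushoutI.ofCoprodI (φ := fmap f g) w.prod : PushoutI (fmap f g)) = x := h6.symm
    rw [h7, hc]
    exact (PushoutI.of_apply_eq_base (fmap f g) false c).symm
  have h8 := hw.eq_empty_of_mem_range (fmap_injective hf hg) hmem
  exact h1 (congrArg CoprodI.Word.toList h8)

end Pool.Agent.AGR
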